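import Mathlib
import Pool.Agent.H556.RT.Fin

/-!
# Rational approximations to algebraic numbers: denominators with structured divisors

`result` is a sharpening of the theorem of Roth and Ridout for rational numbers `p / q` whose
denominator has a large common divisor `D` with a polynomial value `P(u)`, `u` an `S`-unit.
Consequences: a bound `q ^ (-2 + 1 / (K log b) - ε)` for all `q` dividing some
`b ^ r (b ^ s - 1)` with `s ≤ K log q`, and: the period of the base `b` expansion of `1 / q`,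
divided by `log q`, tends to infinity along the denominators `q` of the good rational
approximations to a real algebraic irrational number.
-/

set_option autoImplicit false

namespace Pool.Agent.Results.MP_c307ca_nt.StructuredDenominators

open Polynomial

/-- all prime divisors of `n` lie in `S` (this excludes `n = 0`) -/
def Smooth (S : Finset ℕ) (n : ℕ) : Prop := ∀ ℓ : ℕ, ℓ.Prime → ℓ ∣ n → ℓ ∈ S

/-- the logarithmic height `log max (|a|, b)` of the rational number `a / b` in lowest terms -/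
noncomputable def ht (x : ℚ) : ℝ := Real.log (max x.num.natAbs x.den : ℕ)

theorem result (ξ : ℝ) (hξ : IsAlgebraic ℚ ξ) (hirr : Irrational ξ) :
    -- the inequality
    (∀ S : Finset ℕ, (∀ ℓ ∈ S, ℓ.Prime) → ∀ P : ℤ[X], 1 ≤ P.natDegree → P.coeff 0 ≠ 0 →
      ∀ ε : ℝ, 0 < ε → ∃ q0 : ℕ, ∀ (q : ℕ) (p : ℤ) (v v' D : ℕ) (u : ℚ), q0 ≤ q → p ≠ 0 →
        Smooth S v → Smooth S v' → u ≠ 0 → Smooth S u.num.natAbs → Smooth S u.den →
        aeval u P ≠ 0 → (∀ ℓ ∈ S, ¬ ℓ ∣ D) → (D : ℤ) ∣ (aeval u P).num → v * D ∣ q →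
        (v' : ℤ) ∣ p →
        v * v' * (D : ℝ) ^ (Real.log D / (P.natDegree * ht u)) / (q : ℝ) ^ (2 + ε) <
          |ξ - p / q|) ∧
    -- fractions with short periods
    (∀ b : ℕ, 2 ≤ b → ∀ K : ℝ, 2 ≤ K * Real.log b → ∀ ε : ℝ, 0 < ε →
      ∃ q0 : ℕ, ∀ (q : ℕ) (p : ℤ) (r s : ℕ), q0 ≤ q → 1 ≤ s → (s : ℝ) ≤ K * Real.log q →
        q ∣ b ^ r * (b ^ s - 1) →
        (q : ℝ) ^ (-2 + 1 / (K * Real.log b) - ε) < |ξ - p / q|) ∧
    -- good approximations have long periods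
    (∀ b : ℕ, 2 ≤ b → ∀ K : ℝ, ∃ q0 : ℕ, ∀ (q : ℕ) (p : ℤ) (r s : ℕ), q0 ≤ q → 1 ≤ s →
      |ξ - p / q| < 1 / (q : ℝ) ^ 2 → q ∣ b ^ r * (b ^ s - 1) → K * Real.log q < s) :=
  ⟨fun S hS P hP hP0 _ hε => Pool.Agent.H556.RT.mainA hξ hirr S hS P hP hP0 hε,
    fun _ hb _ hK _ hε => Pool.Agent.H556.RT.mainB hξ hirr hb hK hε,
    fun _ hb K => Pool.Agent.H556.RT.mainC hξ hirr hb K⟩

end Pool.Agent.Results.MP_c307ca_nt.StructuredDenominators
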